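import Pool.Agent.Q155.GN.Stm
import Pool.Agent.Y495.CX.FEW

/-! Project GN: few sets have irregular labels (job GN-BAD; port of `Y433/XK/Gen`, `Y433/XK/Few`). -/

set_option autoImplicit false

open scoped Classical

namespace Pool.Agent.Q241.GN

open Finset Filter
open H385 (ZI nrm)
open Pool.Agent.Y699 hiding kk
open Pool.Agent.Y703.CX (eL zz kk)
open Q155.GN
open Pool.Agent.Y495.CX.Few (PN mert eL_tendsto log_small zz_ge loglog_zz rpow_eq)

theorem mem_SS' {X : ℕ} {S : Finset ZI} : S ∈ SS X ↔ (∀ π ∈ S, PP π) ∧ ∏ π ∈ S, nrm π ≤ X := by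
  unfold SS
  rw [mem_filter, mem_powerset]
  constructor
  · rintro ⟨h1, h2⟩
    exact ⟨fun π hπ => (mem_QB.1 (h1 hπ)).2, h2⟩
  · rintro ⟨h1, h2⟩
    refine ⟨fun π hπ => mem_QB.2 ⟨?_, h1 π hπ⟩, h2⟩
    refine le_trans ?_ h2
    exact single_le_prod' (fun u hu => nrm_pos' (h1 u hu).ne) hπ

/-- the product of the norms -/
noncomputable def pN (S : Finset ZI) : ℕ := ∏ π ∈ S, nrm π

theorem pN_pos {S : Finset ZI} (h : ∀ π ∈ S, PP π) : 0 < pN S :=
  Finset.prod_pos fun π hπ => nrm_pos' ((h π hπ).ne)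

theorem eulerE (P : Finset ZI) (w : ZI → ℝ) (hw : ∀ p ∈ P, 0 ≤ w p) :
    ∑ S ∈ P.powerset, ∏ p ∈ S, w p ≤ Real.exp (∑ p ∈ P, w p) := by
  rw [← Finset.prod_one_add, Real.exp_sum]
  refine prod_le_prod (fun p hp => by have := hw p hp; linarith) fun p _ => ?_
  have := Real.add_one_le_exp (w p)
  linarith

/-- Mertens' theorem, upper bound -/
theorem M_le : ∃ C : ℝ, 0 ≤ C ∧ ∀ N : ℕ, 3 ≤ N →
    ∑ π ∈ QB N, (1 : ℝ) / nrm π ≤ 2 * Real.log (Real.log N) + C := by
  obtain ⟨C, hC0, hC⟩ := mert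
  refine ⟨2 * C, by positivity, fun N hN => ?_⟩
  have hmaps : ∀ π ∈ QB N, (nrm π).minFac ∈ PN N := by
    intro π hπ
    rw [mem_QB] at hπ
    obtain ⟨h1, -, h3, -⟩ := hπ.2.rat
    rw [mem_filter, mem_Icc]
    exact ⟨⟨h1.one_lt.le, h3.trans hπ.1⟩, h1⟩
  rw [← sum_fiberwise_of_maps_to hmaps]
  have h1 : ∀ p ∈ PN N, ∑ π ∈ (QB N).filter (fun π => (nrm π).minFac = p), (1 : ℝ) / nrm π ≤
      2 * (1 / p) := by
    intro p hp
    have hpp : p.Prime := by
      rw [mem_filter] at hp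
      exact hp.2
    have hp0 : (0 : ℝ) < p := by exact_mod_cast hpp.pos
    have h2 : ∀ π ∈ (QB N).filter (fun π => (nrm π).minFac = p), (1 : ℝ) / nrm π ≤ 1 / p := by
      intro π hπ
      rw [mem_filter, mem_QB] at hπ
      obtain ⟨-, -, h3, -⟩ := hπ.1.2.rat
      rw [hπ.2] at h3
      exact one_div_le_one_div_of_le hp0 (by exact_mod_cast h3)
    have h3 : ((QB N).filter (fun π => (nrm π).minFac = p)).card ≤ 2 := by
      refine le_trans (card_le_card ?_) (card_PD_nat hpp)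
      intro π hπ
      rw [mem_filter, mem_QB] at hπ
      obtain ⟨-, h4, -, -⟩ := hπ.1.2.rat
      rw [hπ.2] at h4
      have hp0' : (p : ZI) ≠ 0 := by
        intro h0
        have h1 := nrm_natCast p
        rw [h0] at h1
        have h2 : nrm (0 : ZI) = 0 := nrm_zero_iff.2 rfl
        rw [h2] at h1
        have := hpp.pos
        have : 0 < p ^ 2 := by positivity
        omega
      rw [mem_PD hp0']
      exact ⟨hπ.1.2, h4⟩
    calc ∑ π ∈ (QB N).filter (fun π => (nrm π).minFac = p), (1 : ℝ) / nrm π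
        ≤ ∑ π ∈ (QB N).filter (fun π => (nrm π).minFac = p), (1 : ℝ) / p := sum_le_sum h2
      _ = ((QB N).filter (fun π => (nrm π).minFac = p)).card * (1 / (p:ℝ)) := by
          rw [sum_const, nsmul_eq_mul]
      _ ≤ 2 * (1 / p) := by
          refine mul_le_mul_of_nonneg_right ?_ (by positivity)
          exact_mod_cast h3
  refine (sum_le_sum h1).trans ?_
  rw [← mul_sum]
  have := hC N hN
  linarith

/-- the sum over the small parts -/
theorem small_sum (a : ℝ) (ha : 0 ≤ a) (z : ℕ) :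
    ∑ S ∈ (QB z).powerset, a ^ S.card * (1 / (pN S : ℝ)) ≤
      Real.exp (a * ∑ π ∈ QB z, (1 : ℝ) / nrm π) := by
  have h := eulerE (QB z) (fun π => a * (1 / (nrm π : ℝ))) fun π _ => by positivity
  rw [← mul_sum] at h
  refine le_trans (le_of_eq ?_) h
  refine sum_congr rfl fun S _ => ?_
  rw [prod_mul_distrib, prod_const, prod_div_distrib, prod_const_one]
  unfold pN
  push_cast
  rfl

/-- the general estimate -/
theorem gen (a b : ℝ) (ha : 0 ≤ a) (hb : 0 ≤ b) (Q : ℕ → Finset ZI → Prop)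
    (hcount : ∀ (X : ℕ) (S₀ : Finset ZI), (∀ u ∈ S₀, PP u ∧ nrm u ≤ zz X) → S₀.card ≤ kk X →
      ∀ F : Finset (Finset ZI),
      (∀ S ∈ F, S ∈ SS X ∧ (S.card ≤ kk X ∧ Q X S) ∧ sm (zz X) S = S₀) → (F.card : ℝ) ≤
        b * a ^ S₀.card * lg (pN S₀) * (((X / pN S₀ : ℕ) : ℝ) *
          (lg (X / pN S₀)) ^ (-(1 / 4) : ℝ))) :
    ∀ ε : ℝ, 0 < ε → ∃ X₀ : ℕ, ∀ X : ℕ, X₀ ≤ X → ∀ F : Finset (Finset ZI),
      (∀ S ∈ F, S ∈ SS X ∧ S.card ≤ kk X ∧ Q X S) → (F.card : ℝ) ≤ ε * X := by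
  intro ε hε
  obtain ⟨C, hC0, hC⟩ := M_le
  -- the final comparison
  have hlim : Tendsto (fun l : ℝ => (297 * b * Real.exp (a * C)) * Real.exp (-(1 / 12) * l)) atTop
      (nhds 0) := by
    have h1 : Tendsto (fun l : ℝ => Real.exp (-(1 / 12) * l)) atTop (nhds 0) := by
      refine Real.tendsto_exp_atBot.comp ?_
      exact tendsto_id.const_mul_atTop_of_neg (by norm_num)
    have := h1.const_mul (297 * b * Real.exp (a * C))
    rwa [mul_zero] at this
  have hpow : ∀ᶠ l : ℝ in atTop, 33 * l ^ 4 + 3 ≤ Real.exp l := by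
    have h1 := (Real.isLittleO_pow_exp_atTop (n := 4)).bound (show (0:ℝ) < 1 / 66 by norm_num)
    filter_upwards [h1, eventually_ge_atTop (2:ℝ)] with l hl hl2
    rw [Real.norm_of_nonneg (by positivity), Real.norm_of_nonneg (Real.exp_pos _).le] at hl
    have h2 : (16:ℝ) ≤ l ^ 4 := by
      have := pow_le_pow_left₀ (by norm_num : (0:ℝ) ≤ 2) hl2 4
      linarith
    linarith
  have hev := (((eL_tendsto.eventually (log_small (4 + 6 * a) (1 / 6) (by norm_num))).and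
    (eL_tendsto.eventually (eventually_ge_atTop 2))).and
    (eL_tendsto.eventually (hlim.eventually (gt_mem_nhds hε)))).and (eL_tendsto.eventually hpow)
  obtain ⟨X₀, hX₀⟩ := eventually_atTop.1 hev
  refine ⟨max X₀ 3, fun X hX F hF => ?_⟩
  obtain ⟨⟨⟨k1, k2⟩, k3⟩, k4⟩ := hX₀ X ((le_max_left _ _).trans hX)
  have hX3 : 3 ≤ X := (le_max_right _ _).trans hX
  set ℓ : ℝ := eL X with hℓ
  set z : ℕ := zz X with hz
  set k : ℕ := kk X with hk
  have hl0 : 0 < ℓ := by linarith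
  have hlX : Real.log X = Real.exp ℓ := by
    have := rpow_eq (X := X) k2 1
    rwa [Real.rpow_one, one_mul] at this
  have hX0 : (0 : ℝ) < X := by exact_mod_cast (by omega : 0 < X)
  have hk11 : (k : ℝ) ≤ 11 * ℓ := by
    have h := Nat.ceil_lt_add_one (show (0 : ℝ) ≤ 10 * eL X by rw [← hℓ]; positivity)
    have h' : (k : ℝ) < 10 * ℓ + 1 := h
    linarith
  have hz3 : 3 ≤ z := zz_ge k2
  have hz0 : (0 : ℝ) < z := by exact_mod_cast (by omega : 0 < z)
  have hzlog : Real.log z ≤ ℓ ^ 3 := by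
    rw [Real.log_le_iff_le_exp hz0]
    exact Nat.floor_le (Real.exp_pos _).le
  have hzlog0 : 0 < Real.log z := Real.log_pos (by exact_mod_cast (by omega : 1 < z))
  have hl4 : (1 : ℝ) ≤ ℓ ^ 4 := one_le_pow₀ (by linarith)
  set W : Finset (Finset ZI) := (QB z).powerset.filter fun S => S.card ≤ k with hW
  have hmaps : ∀ S ∈ F, sm z S ∈ W := by
    intro S hS
    replace hS := hF S hS
    rw [hW, mem_filter, mem_powerset]
    refine ⟨?_, (card_le_card (filter_subset _ _)).trans hS.2.1⟩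
    intro π hπ
    unfold sm at hπ
    rw [mem_filter] at hπ
    have h1 := (mem_SS'.1 hS.1).1 π hπ.1
    rw [mem_QB]
    exact ⟨hπ.2, h1⟩
  have hcard : (F.card : ℝ) = ∑ S₀ ∈ W, ((F.filter fun S => sm z S = S₀).card : ℝ) := by
    have := card_eq_sum_card_fiberwise hmaps
    exact_mod_cast this
  have hone : ∀ S₀ ∈ W, ((F.filter fun S => sm z S = S₀).card : ℝ) ≤
      (a ^ S₀.card * (1 / (pN S₀ : ℝ))) * (297 * b * ℓ ^ 4 * X * Real.exp (-(1 / 4) * ℓ)) := by
    intro S₀ hS₀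
    rw [hW, mem_filter, mem_powerset] at hS₀
    have hpq : ∀ u ∈ S₀, PP u ∧ nrm u ≤ z := fun u hu => by
      have := hS₀.1 hu
      rw [mem_QB] at this
      exact ⟨this.2, this.1⟩
    have h1 := hcount X S₀ hpq hS₀.2 (F.filter fun S => sm z S = S₀) (fun S hS => by
      rw [mem_filter] at hS
      have h := hF S hS.1
      exact ⟨h.1, h.2, hS.2⟩)
    refine h1.trans ?_
    set N := pN S₀ with hN
    have hN0 : 0 < N := pN_pos fun u hu => (hpq u hu).1
    have hN0' : (0 : ℝ) < N := by exact_mod_cast hN0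
    have hlN : Real.log N ≤ 11 * ℓ ^ 4 := by
      have e1 : Real.log N = ∑ p ∈ S₀, Real.log (nrm p) := by
        rw [hN]
        unfold pN
        push_cast
        rw [Real.log_prod]
        intro p hp
        have := nrm_ne (hpq p hp).1.ne
        exact_mod_cast this
      rw [e1]
      calc ∑ p ∈ S₀, Real.log (nrm p) ≤ ∑ _p ∈ S₀, Real.log z := by
            refine sum_le_sum fun p hp => ?_
            exact Real.log_le_log (by exact_mod_cast nrm_pos' (hpq p hp).1.ne)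
              (by exact_mod_cast (hpq p hp).2)
        _ = S₀.card * Real.log z := by rw [sum_const, nsmul_eq_mul]
        _ ≤ (11 * ℓ) * ℓ ^ 3 := by
            refine mul_le_mul (le_trans (by exact_mod_cast hS₀.2) hk11) hzlog hzlog0.le
              (by positivity)
        _ = 11 * ℓ ^ 4 := by ring
    have hlgN : lg N ≤ 33 * ℓ ^ 4 := by
      rcases Nat.lt_or_ge N 2 with h | h
      · have : N = 1 := by omega
        rw [this]
        have : lg 1 = 1 := by unfold lg; simp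
        rw [this]
        linarith
      · have := lg_le_log h
        linarith
    have hYle : ((X / N : ℕ) : ℝ) ≤ (X : ℝ) / N := Nat.cast_div_le
    have hYge : Real.exp (Real.log X / 3) ≤ ((X / N : ℕ) : ℝ) := by
      have e1 : (X : ℝ) / N < ((X / N : ℕ) : ℝ) + 1 := by
        rw [div_lt_iff₀ hN0']
        have := Nat.lt_mul_div_succ X hN0
        have h' : ((X : ℕ) : ℝ) < ((N * (X / N + 1) : ℕ) : ℝ) := by exact_mod_cast this
        rw [Nat.cast_mul, Nat.cast_add, Nat.cast_one] at h'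
        linarith
      have e2 : Real.exp (Real.log X - Real.log N) = (X : ℝ) / N := by
        rw [Real.exp_sub, Real.exp_log hX0, Real.exp_log hN0']
      have e3 : Real.exp (Real.log X / 3 + 1) ≤ (X : ℝ) / N := by
        rw [← e2]
        apply Real.exp_le_exp.2
        rw [← hlX] at k4
        linarith
      rw [Real.exp_add] at e3
      have e4 : (2 : ℝ) ≤ Real.exp 1 := by have := Real.exp_one_gt_d9; linarith
      have e5 : (1 : ℝ) ≤ Real.exp (Real.log X / 3) := by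
        apply Real.one_le_exp
        rw [hlX]
        positivity
      nlinarith
    have hY1 : 1 ≤ X / N := by
      have : (0:ℝ) < ((X / N : ℕ) : ℝ) := lt_of_lt_of_le (Real.exp_pos _) hYge
      exact_mod_cast this
    have hlgY : Real.exp ℓ / 3 ≤ lg (X / N) := by
      refine le_trans ?_ (log_le_lg hY1)
      rw [← hlX, Real.le_log_iff_exp_le (by exact_mod_cast hY1)]
      exact hYge
    have hrp : (lg (X / N)) ^ (-(1 / 4) : ℝ) ≤ 3 * Real.exp (-(1 / 4) * ℓ) := by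
      have e1 : (lg (X / N)) ^ (-(1 / 4) : ℝ) ≤ (Real.exp ℓ / 3) ^ (-(1 / 4) : ℝ) :=
        Real.rpow_le_rpow_of_nonpos (by positivity) hlgY (by norm_num)
      refine e1.trans ?_
      rw [Real.div_rpow (Real.exp_pos _).le (by norm_num), ← Real.exp_mul, div_eq_mul_inv,
        ← Real.rpow_neg (by norm_num), neg_neg, mul_comm ℓ, mul_comm]
      refine mul_le_mul_of_nonneg_right ?_ (Real.exp_pos _).le
      calc (3:ℝ) ^ (1 / 4 : ℝ) ≤ 3 ^ (1:ℝ) :=
            Real.rpow_le_rpow_of_exponent_le (by norm_num) (by norm_num)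
        _ = 3 := Real.rpow_one _
    have hlg0 : 0 ≤ lg N := (zero_le_one.trans (one_le_lg N))
    have hrp0 : 0 ≤ (lg (X / N)) ^ (-(1 / 4) : ℝ) :=
      Real.rpow_nonneg (zero_le_one.trans (one_le_lg _)) _
    calc b * a ^ S₀.card * lg N * (((X / N : ℕ) : ℝ) * (lg (X / N)) ^ (-(1 / 4) : ℝ))
        ≤ b * a ^ S₀.card * (33 * ℓ ^ 4) * (((X : ℝ) / N) * (3 * Real.exp (-(1 / 4) * ℓ))) := by
          gcongr
      _ ≤ _ := by
          have : b * a ^ S₀.card * (33 * ℓ ^ 4) * (((X : ℝ) / N) * (3 * Real.exp (-(1 / 4) * ℓ))) =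
            (a ^ S₀.card * (1 / (N : ℝ))) * (99 * b * ℓ ^ 4 * X * Real.exp (-(1 / 4) * ℓ)) := by
            ring
          rw [this]
          gcongr
          norm_num
  have hsum : (F.card : ℝ) ≤ Real.exp (a * ∑ π ∈ QB z, (1 : ℝ) / nrm π) *
      (297 * b * ℓ ^ 4 * X * Real.exp (-(1 / 4) * ℓ)) := by
    rw [hcard]
    refine (sum_le_sum hone).trans ?_
    rw [← sum_mul]
    refine mul_le_mul_of_nonneg_right ?_ (by positivity)
    refine le_trans ?_ (small_sum a ha z)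
    refine sum_le_sum_of_subset_of_nonneg (filter_subset _ _) fun S _ _ => by positivity
  have hM : a * ∑ π ∈ QB z, (1 : ℝ) / nrm π ≤ a * C + 6 * a * Real.log ℓ := by
    have h1 := hC z hz3
    have h2 := loglog_zz k2
    have h3 : ∑ π ∈ QB z, (1 : ℝ) / nrm π ≤ 6 * Real.log ℓ + C := by linarith
    have := mul_le_mul_of_nonneg_left h3 ha
    linarith
  have hl4' : ℓ ^ 4 = Real.exp (4 * Real.log ℓ) := by
    rw [show (4:ℝ) * Real.log ℓ = Real.log (ℓ ^ 4) by rw [Real.log_pow]; push_cast; ring]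
    exact (Real.exp_log (by positivity)).symm
  calc (F.card : ℝ) ≤ Real.exp (a * C + 6 * a * Real.log ℓ) *
        (297 * b * ℓ ^ 4 * X * Real.exp (-(1 / 4) * ℓ)) := by
        refine hsum.trans ?_
        gcongr
    _ = 297 * b * Real.exp (a * C) * Real.exp ((4 + 6 * a) * Real.log ℓ - 1 / 4 * ℓ) * X := by
        rw [hl4', Real.exp_add, show (4 + 6 * a) * Real.log ℓ - 1 / 4 * ℓ =
          6 * a * Real.log ℓ + 4 * Real.log ℓ + -(1 / 4) * ℓ by ring, Real.exp_add, Real.exp_add]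
        ring
    _ ≤ 297 * b * Real.exp (a * C) * Real.exp (-(1 / 12) * ℓ) * X := by
        gcongr
        linarith
    _ ≤ ε * X := by
        refine mul_le_mul_of_nonneg_right ?_ hX0.le
        exact le_of_lt k3


/-- the large parts are counted by squarefree elements -/
theorem fiber_le (X z : ℕ) (S₀ : Finset ZI) (hS₀ : ∀ u ∈ S₀, PP u)
    (F : Finset (Finset ZI)) (hF : ∀ S ∈ F, S ∈ SS X ∧ sm z S = S₀) (g : ZI → ℝ)
    (hg : ∀ π, 0 ≤ g π) (c : ℝ) (hc : ∀ S ∈ F, c ≤ ∏ π ∈ la z S, g π) :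
    (F.card : ℝ) * c ≤ ∑ n ∈ SB (X / pN S₀), mf g n := by
  have hpr : ∀ S ∈ F, (∀ π ∈ S, PP π) ∧ ∏ π ∈ S, nrm π ≤ X := by
    intro S hS
    exact mem_SS'.1 (hF S hS).1
  rw [← nsmul_eq_mul, ← sum_const]
  refine sum_le_inj (fun S => ∏ π ∈ la z S, π) ?_ ?_ ?_ ?_
  · intro S hS
    obtain ⟨h1, h2⟩ := hpr S hS
    rw [mem_SB]
    refine ⟨?_, (PS_prod fun π hπ => h1 π (filter_subset _ _ hπ)).1⟩
    rw [Nat.le_div_iff_mul_le (pN_pos hS₀), nrm_prod, mul_comm]
    have : (∏ π ∈ sm z S, nrm π) * ∏ π ∈ la z S, nrm π = ∏ π ∈ S, nrm π :=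
      prod_filter_mul_prod_filter_not _ _ _
    unfold pN
    rw [← (hF S hS).2, this]
    exact h2
  · intro S hS T hT h
    have e1 := (PS_prod (S := la z S) fun π hπ => (hpr S hS).1 π (filter_subset _ _ hπ)).2
    have e2 := (PS_prod (S := la z T) fun π hπ => (hpr T hT).1 π (filter_subset _ _ hπ)).2
    have e3 : la z S = la z T := by
      rw [← e1, ← e2]
      exact congrArg PD h
    have key : ∀ S : Finset ZI, sm z S ∪ la z S = S := fun S => filter_union_filter_not_eq _ _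
    rw [← key S, ← key T, (hF S hS).2, (hF T hT).2, e3]
  · intro S hS
    refine (hc S hS).trans (le_of_eq ?_)
    unfold mf
    rw [(PS_prod (S := la z S) fun π hπ => (hpr S hS).1 π (filter_subset _ _ hπ)).2]
  · intro n _
    exact mf_nonneg hg n

theorem one_le_div {X z : ℕ} {S₀ : Finset ZI} (hS₀ : ∀ u ∈ S₀, PP u) {S : Finset ZI}
    (hS : S ∈ SS X ∧ sm z S = S₀) : 1 ≤ X / pN S₀ := by
  have h := mem_SS'.1 hS.1
  rw [Nat.le_div_iff_mul_le (pN_pos hS₀), one_mul]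
  refine le_trans ?_ h.2
  unfold pN
  rw [← hS.2]
  exact prod_le_prod_of_subset_of_one_le' (filter_subset _ _) fun u hu _ => nrm_pos' (h.1 u hu).ne

/-- sets with few large primes at which a function is `1 / 2` -/
theorem half_count (X z : ℕ) (S₀ : Finset ZI) (hS₀ : ∀ u ∈ S₀, PP u)
    (F : Finset (Finset ZI)) (hF : ∀ S ∈ F, S ∈ SS X ∧ sm z S = S₀) (q : ZI → Prop) [DecidablePred q]
    (L : ℕ) (hq : ∀ S ∈ F, ((la z S).filter q).card ≤ L) (B : ℝ) (hB : 0 ≤ B)
    (hH : ∀ T : ℕ, 1 ≤ T → ∑ n ∈ SB T, mf (fun π => if q π then (1 / 2 : ℝ) else 1) n ≤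
      B * (T * (lg T) ^ (-(1 / 4) : ℝ))) :
    (F.card : ℝ) ≤ 2 ^ L * (B * (((X / pN S₀ : ℕ) : ℝ) * (lg (X / pN S₀)) ^ (-(1 / 4) : ℝ))) := by
  have hTl : 0 ≤ ((X / pN S₀ : ℕ) : ℝ) * (lg (X / pN S₀)) ^ (-(1 / 4) : ℝ) :=
    mul_nonneg (Nat.cast_nonneg _) (Real.rpow_nonneg (zero_le_one.trans (one_le_lg _)) _)
  rcases F.eq_empty_or_nonempty with h0 | ⟨S₁, hS₁⟩
  · rw [h0, card_empty, Nat.cast_zero]
    positivity
  have hT := one_le_div hS₀ (hF S₁ hS₁)
  have h := fiber_le X z S₀ hS₀ F hF (fun π => if q π then (1 / 2 : ℝ) else 1)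
    (fun π => by split_ifs <;> norm_num) ((1 / 2) ^ L) (fun S hS => by
      rw [prod_ite, prod_const, prod_const_one, mul_one]
      exact pow_le_pow_of_le_one (by norm_num) (by norm_num) (hq S hS))
  have h2 := h.trans (hH _ hT)
  have h3 : (2 : ℝ) ^ L * (1 / 2) ^ L = 1 := by
    rw [← mul_pow]
    norm_num
  calc (F.card : ℝ) = 2 ^ L * ((F.card : ℝ) * (1 / 2) ^ L) := by
        linear_combination (-(F.card : ℝ)) * h3
    _ ≤ _ := mul_le_mul_of_nonneg_left h2 (by positivity)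

theorem sum_s_ne {w : Finset ZI} (hw : ∀ u ∈ w, PP u) {π : ZI}
    (h : jac (∏ u ∈ w, u) π = -1) : ∑ u ∈ w, s u π ≠ 0 := by
  have e1 : jac (∏ u ∈ w, u) π = ∏ u ∈ w, qr u π := by
    unfold jac
    rw [(PS_prod hw).2]
  rw [e1] at h
  have key : ∀ v : Finset ZI, (∀ u ∈ v, qr u π ≠ 0) → (∏ u ∈ v, qr u π = 1 ∧ ∑ u ∈ v, s u π = 0) ∨
      (∏ u ∈ v, qr u π = -1 ∧ ∑ u ∈ v, s u π = 1) := by
    intro v
    induction v using Finset.induction_on with
    | empty =>
      intro _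
      left
      simp
    | insert a t ha ih =>
      intro hv
      have h1 := ih fun u hu => hv u (mem_insert_of_mem hu)
      have h2 := hv a (mem_insert_self _ _)
      rw [prod_insert ha, sum_insert ha]
      have h3 : (qr a π = 1 ∧ s a π = 0) ∨ (qr a π = -1 ∧ s a π = 1) := by
        have h5 : qr a π = 0 ∨ qr a π = 1 ∨ qr a π = -1 := by
          unfold qr
          split_ifs <;> simp
        rcases h5 with h5 | h5 | h5
        · exact absurd h5 h2
        · left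
          refine ⟨h5, ?_⟩
          unfold s
          rw [h5, if_neg (by norm_num)]
        · right
          refine ⟨h5, ?_⟩
          unfold s
          rw [h5, if_pos rfl]
      rcases h3 with ⟨h3, h4⟩ | ⟨h3, h4⟩ <;> rcases h1 with ⟨h5, h6⟩ | ⟨h5, h6⟩ <;>
        rw [h3, h4, h5, h6]
      · left; simp
      · right; simp
      · right; simp
      · left
        refine ⟨by norm_num, by decide⟩
  have hne : ∀ u ∈ w, qr u π ≠ 0 := by
    intro u hu h0
    rw [prod_eq_zero hu h0] at h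
    norm_num at h
  rcases key w hne with ⟨h1, -⟩ | ⟨-, h2⟩
  · rw [h1] at h
    norm_num at h
  · rw [h2]
    exact one_ne_zero

theorem lg_mul_le {a b : ℕ} (ha : a ≠ 0) (hb : b ≠ 0) : lg (a * b) ≤ 2 * lg b * lg a := by
  have h1 : lg (a * b) ≤ lg a + lg b := by
    unfold lg
    have h1 : a * b < 2 ^ (Nat.log 2 a + Nat.log 2 b + 2) := by
      calc a * b < 2 ^ (Nat.log 2 a + 1) * 2 ^ (Nat.log 2 b + 1) := by
            refine Nat.mul_lt_mul'' ?_ ?_
            · exact Nat.lt_pow_succ_log_self (by norm_num) a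
            · exact Nat.lt_pow_succ_log_self (by norm_num) b
        _ = 2 ^ (Nat.log 2 a + Nat.log 2 b + 2) := by rw [← pow_add]; ring_nf
    have h2 : Nat.log 2 (a * b) < Nat.log 2 a + Nat.log 2 b + 2 :=
      Nat.log_lt_of_lt_pow (mul_ne_zero ha hb) h1
    have h3 : Nat.log 2 (a * b) + 1 ≤ Nat.log 2 a + 1 + (Nat.log 2 b + 1) := by omega
    exact_mod_cast h3
  have h2 := one_le_lg a
  have h3 := one_le_lg b
  nlinarith

theorem nrm_prod_le {S₀ W w : Finset ZI} (hS₀ : ∀ u ∈ S₀, PP u) (hW : ∀ u ∈ W, PP u)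
    (hw : w ⊆ S₀ ∪ W) : nrm (∏ u ∈ w, u) ≤ pN S₀ * pN W := by
  rw [nrm_prod]
  have hall : ∀ u ∈ S₀ ∪ W, 1 ≤ nrm u := by
    intro u hu
    rcases mem_union.1 hu with h | h
    · exact nrm_pos' (hS₀ u h).ne
    · exact nrm_pos' (hW u h).ne
  calc ∏ u ∈ w, nrm u ≤ ∏ u ∈ S₀ ∪ W, nrm u :=
        prod_le_prod_of_subset_of_one_le' hw fun u hu _ => hall u hu
    _ ≤ (∏ u ∈ S₀ ∪ W, nrm u) * ∏ u ∈ S₀ ∩ W, nrm u := by
        refine Nat.le_mul_of_pos_right _ ?_
        exact prod_pos fun u hu => nrm_pos' (hS₀ u (mem_inter.1 hu).1).ne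
    _ = pN S₀ * pN W := prod_union_inter

theorem bad_count {CH C4 : ℝ} (hCH1 : 1 ≤ CH) (hC41 : 1 ≤ C4)
    (hCH : ∀ (G : ZI) (T : ℕ), PS G → G ≠ 1 → 1 ≤ T →
      ∑ n ∈ SB T, mf (fun π => if jac G π = -1 then (1 / 2 : ℝ) else 1) n ≤
        CH * lg (nrm G) * (T * (lg T) ^ (-(1 / 4) : ℝ)))
    (hC4 : ∀ T : ℕ, 1 ≤ T →
      ∑ n ∈ SB T, mf (fun π => if nrm π % 8 = 5 then (1 / 2 : ℝ) else 1) n ≤
        C4 * (T * (lg T) ^ (-(1 / 4) : ℝ))) (A R : ℕ) (W : Finset ZI) (hW : ∀ u ∈ W, PP u)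
    (X : ℕ) (S₀ : Finset ZI) (hS₀ : ∀ u ∈ S₀, PP u ∧ nrm u ≤ zz X)
    (G : Finset (Finset ZI))
    (hG : ∀ S ∈ G, S ∈ SS X ∧ (S.card ≤ kk X ∧ ¬ Rg A R W (sm (zz X) S) (la (zz X) S)) ∧
      sm (zz X) S = S₀) : (G.card : ℝ) ≤
        (2 ^ (W.card + 1) * 2 ^ (A * W.card + R) * ((CH + C4) * (2 * lg (pN W)))) *
          (2 ^ (A + 1)) ^ S₀.card * lg (pN S₀) * (((X / pN S₀ : ℕ) : ℝ) *
          (lg (X / pN S₀)) ^ (-(1 / 4) : ℝ)) := by
  set L : ℕ := A * (S₀ ∪ W).card + R with hL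
  set Y : ℝ := ((X / pN S₀ : ℕ) : ℝ) * (lg (X / pN S₀)) ^ (-(1 / 4) : ℝ) with hY
  have hY0 : 0 ≤ Y :=
    mul_nonneg (Nat.cast_nonneg _) (Real.rpow_nonneg (zero_le_one.trans (one_le_lg _)) _)
  have hS₀' : ∀ u ∈ S₀, PP u := fun u hu => (hS₀ u hu).1
  have hlS := one_le_lg (pN S₀)
  have hlW := one_le_lg (pN W)
  set D : ℝ := (CH + C4) * (2 * lg (pN W) * lg (pN S₀)) with hD
  have hD0 : 0 ≤ D := by positivity
  set Gw : Finset ZI → Finset (Finset ZI) := fun w =>
    G.filter fun S => ((la (zz X) S).filter fun π => ∑ u ∈ w, s u π ≠ 0).card < L with hGw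
  set G4 : Finset (Finset ZI) :=
    G.filter fun S => ((la (zz X) S).filter fun π => fc π = 1 ∨ fc π = 3).card < L with hG4
  set P := (S₀ ∪ W).powerset.filter fun w => w.Nonempty with hP
  have hsub : G ⊆ P.biUnion Gw ∪ G4 := by
    intro S hS
    obtain ⟨h1, ⟨h2, h3⟩, h4⟩ := hG S hS
    rw [h4] at h3
    unfold Rg at h3
    rw [not_and_or] at h3
    rcases h3 with h3 | h3
    · unfold RN at h3
      push Not at h3
      obtain ⟨w, hw, hwn, h5⟩ := h3
      rw [mem_union]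
      left
      rw [mem_biUnion]
      refine ⟨w, ?_, ?_⟩
      · rw [hP, mem_filter, mem_powerset]
        exact ⟨hw, hwn⟩
      · rw [hGw, mem_filter]
        exact ⟨hS, h5⟩
    · rw [mem_union]
      right
      rw [hG4, mem_filter]
      exact ⟨hS, not_le.1 h3⟩
  have hw1 : ∀ w ∈ P, ((Gw w).card : ℝ) ≤ 2 ^ L * (D * Y) := by
    intro w hw
    rw [hP, mem_filter, mem_powerset] at hw
    have hwP : ∀ u ∈ w, PP u := by
      intro u hu
      rcases mem_union.1 (hw.1 hu) with h | h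
      · exact hS₀' u h
      · exact hW u h
    obtain ⟨g1, g2⟩ := PS_prod hwP
    have g3 : (∏ u ∈ w, u) ≠ 1 := by
      intro h
      rw [h, PD_one] at g2
      exact hw.2.ne_empty g2.symm
    refine half_count X (zz X) S₀ hS₀' (Gw w) (fun S hS => ?_)
      (fun π => jac (∏ u ∈ w, u) π = -1) L (fun S hS => ?_) D hD0 (fun T hT => ?_)
    · rw [hGw, mem_filter] at hS
      exact ⟨(hG S hS.1).1, (hG S hS.1).2.2⟩
    · rw [hGw, mem_filter] at hS
      refine le_trans (card_le_card ?_) hS.2.le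
      intro π hπ
      rw [mem_filter] at hπ ⊢
      exact ⟨hπ.1, sum_s_ne hwP hπ.2⟩
    · refine (hCH _ T g1 g3 hT).trans ?_
      refine mul_le_mul_of_nonneg_right ?_ ?_
      · rw [hD]
        have h1 : lg (nrm (∏ u ∈ w, u)) ≤ 2 * lg (pN W) * lg (pN S₀) :=
          (lg_mono (nrm_prod_le hS₀' hW hw.1)).trans
            (lg_mul_le (pN_pos hS₀').ne' (pN_pos hW).ne')
        have h2 := one_le_lg (nrm (∏ u ∈ w, u))
        calc CH * lg (nrm (∏ u ∈ w, u)) ≤ (CH + C4) * lg (nrm (∏ u ∈ w, u)) := by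
              refine mul_le_mul_of_nonneg_right (by linarith) (by linarith)
          _ ≤ _ := mul_le_mul_of_nonneg_left h1 (by linarith)
      · exact mul_nonneg (Nat.cast_nonneg _)
          (Real.rpow_nonneg (zero_le_one.trans (one_le_lg _)) _)
  have h41 : (G4.card : ℝ) ≤ 2 ^ L * (D * Y) := by
    refine half_count X (zz X) S₀ hS₀' G4 (fun S hS => ?_)
      (fun π => nrm π % 8 = 5) L (fun S hS => ?_) D hD0 (fun T hT => ?_)
    · rw [hG4, mem_filter] at hS
      exact ⟨(hG S hS.1).1, (hG S hS.1).2.2⟩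
    · rw [hG4, mem_filter] at hS
      refine le_trans (card_le_card ?_) hS.2.le
      intro π hπ
      rw [mem_filter] at hπ ⊢
      refine ⟨hπ.1, ?_⟩
      have h5 : nrm π % 16 = 5 ∨ nrm π % 16 = 13 := by omega
      unfold fc
      rcases h5 with h5 | h5
      · left
        rw [if_pos h5]
      · right
        rw [if_neg (by omega), if_neg (by omega), if_pos h5]
    · refine (hC4 T hT).trans ?_
      refine mul_le_mul_of_nonneg_right ?_ ?_
      · rw [hD]
        nlinarith [mul_le_mul hlW hlS zero_le_one (by linarith)]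
      · exact mul_nonneg (Nat.cast_nonneg _)
          (Real.rpow_nonneg (zero_le_one.trans (one_le_lg _)) _)
  have hcU : (S₀ ∪ W).card ≤ S₀.card + W.card := card_union_le _ _
  have hPc : (P.card : ℝ) + 1 ≤ 2 ^ (W.card + 1) * 2 ^ S₀.card := by
    have h1 : P.card + 1 ≤ 2 ^ (W.card + 1) * 2 ^ S₀.card := by
      have h2 : P.card ≤ 2 ^ (S₀ ∪ W).card := by
        rw [← card_powerset]
        exact card_filter_le _ _
      have h3 : 2 ^ (S₀ ∪ W).card ≤ 2 ^ (S₀.card + W.card) :=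
        Nat.pow_le_pow_right (by norm_num) hcU
      have h4 : 1 ≤ 2 ^ (S₀.card + W.card) := Nat.one_le_two_pow
      calc P.card + 1 ≤ 2 ^ (S₀.card + W.card) + 2 ^ (S₀.card + W.card) := by omega
        _ = 2 ^ (W.card + 1) * 2 ^ S₀.card := by ring
    exact_mod_cast h1
  have h2L : (2 : ℝ) ^ L ≤ 2 ^ (A * W.card + R) * (2 ^ A) ^ S₀.card := by
    rw [← pow_mul, ← pow_add]
    refine pow_le_pow_right₀ (by norm_num) ?_
    rw [hL]
    nlinarith
  calc (G.card : ℝ) ≤ ((P.biUnion Gw ∪ G4).card : ℝ) := by exact_mod_cast card_le_card hsub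
    _ ≤ ∑ w ∈ P, ((Gw w).card : ℝ) + G4.card := by
        exact_mod_cast (card_union_le _ _).trans (Nat.add_le_add_right card_biUnion_le _)
    _ ≤ ∑ w ∈ P, 2 ^ L * (D * Y) + 2 ^ L * (D * Y) := add_le_add (sum_le_sum hw1) h41
    _ = ((P.card : ℝ) + 1) * (2 ^ L * (D * Y)) := by rw [sum_const, nsmul_eq_mul]; ring
    _ ≤ (2 ^ (W.card + 1) * 2 ^ S₀.card) * ((2 ^ (A * W.card + R) * (2 ^ A) ^ S₀.card) *
          (D * Y)) := by gcongr
    _ = _ := by
        rw [hD, pow_succ (2 : ℝ) A, mul_pow]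
        ring

/-- **GN-BAD** -/
theorem bad : S_BAD := by
  intro _ hHAL hHA4 A R W hW ε hε
  obtain ⟨CH, hCH1, hCH⟩ := hHAL
  obtain ⟨C4, hC41, hC4⟩ := hHA4
  have hlW := one_le_lg (pN W)
  obtain ⟨X₀, hX₀⟩ := gen (2 ^ (A + 1))
    (2 ^ (W.card + 1) * 2 ^ (A * W.card + R) * ((CH + C4) * (2 * lg (pN W))))
    (by positivity) (by positivity)
    (fun X S => ¬ Rg A R W (sm (zz X) S) (la (zz X) S))
    (fun X S₀ hS₀ _ F hF => bad_count hCH1 hC41 hCH hC4 A R W hW X S₀ hS₀ F hF) ε hε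
  refine ⟨X₀, fun X hX => hX₀ X hX _ fun S hS => ?_⟩
  rw [mem_filter] at hS
  exact hS

end Pool.Agent.Q241.GN
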